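import Mathlib

set_option autoImplicit false

/-! # Algorithms for the product of two matrices whose linear forms have bounded rank -/

namespace Pool.Agent.K6.H30.MMQ

universe u

/-- The matrix multiplication tensor of format `n × n × n` is a sum of `r` products `a ⊗ b ⊗ c` of
matrices of rank at most `q` (the coefficient matrices of the linear forms of the algorithm). -/
def HasRankQ (K : Type u) [Field K] (n q r : ℕ) : Prop :=
  ∃ a b c : Fin r → Matrix (Fin n) (Fin n) K,
    (∀ t, (a t).rank ≤ q ∧ (b t).rank ≤ q ∧ (c t).rank ≤ q) ∧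
    ∀ i j j' k k' l : Fin n, (if j = j' ∧ k = k' ∧ l = i then (1 : K) else 0) =
      ∑ t : Fin r, a t i j * b t j' k * c t k' l

/-- The least number of products of an algorithm for `n × n` matrices whose linear forms have
rank at most `q`. -/
noncomputable def rkQ (K : Type u) [Field K] (n q : ℕ) : ℕ := sInf {r : ℕ | HasRankQ K n q r}

/-- The exponent of the matrix multiplication algorithms over `ℂ` whose linear forms have rank at
most `n ^ ρ`. -/
noncomputable def omegaQ (ρ : ℝ) : ℝ :=
  sInf {τ : ℝ | ∃ C : ℝ, ∀ n : ℕ, 1 ≤ n → (rkQ ℂ n ⌊(n : ℝ) ^ ρ⌋₊ : ℝ) ≤ C * (n : ℝ) ^ τ}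

end Pool.Agent.K6.H30.MMQ
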