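import Mathlib

set_option autoImplicit false

/-! # Rank factorisations, rank of sums and of Kronecker products -/

namespace Pool.Agent.K6.H30.MMQ

open Finset Matrix

universe u v w

variable {K : Type u} [Field K]

/-- `M` is a product of an `I × q` matrix and a `q × J` matrix. -/
def Fac {I : Type v} {J : Type w} (M : I → J → K) (q : ℕ) : Prop :=
  ∃ (L : I → Fin q → K) (R : Fin q → J → K), ∀ i j, M i j = ∑ t, L i t * R t j

lemma fac_rank {I J : Type*} [Fintype I] [Fintype J] (M : Matrix I J K) : Fac M M.rank := by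
  classical
  set W := LinearMap.range M.mulVecLin with hW
  have hr : Module.finrank K W = M.rank := rfl
  let b := Module.finBasisOfFinrankEq K W hr
  refine ⟨fun i t => (b t : I → K) i,
    fun t j => b.repr ⟨M.mulVecLin (Pi.single j 1), LinearMap.mem_range_self _ _⟩ t, ?_⟩
  intro i j
  have h1 := b.sum_repr ⟨M.mulVecLin (Pi.single j 1), LinearMap.mem_range_self _ _⟩
  have h2 := congrArg (fun x : W => (x : I → K) i) h1
  simp only [Submodule.coe_sum, Submodule.coe_smul, Finset.sum_apply, Pi.smul_apply, smul_eq_mul,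
    Matrix.mulVecLin_apply, Matrix.mulVec_single_one, Matrix.col_apply] at h2
  rw [← h2]
  refine Finset.sum_congr rfl (fun t _ => ?_)
  simp only [Matrix.mulVecLin_apply, Matrix.mulVec_single_one]
  exact mul_comm _ _

lemma Fac.mono {I : Type v} {J : Type w} {M : I → J → K} {q q' : ℕ} (h : Fac M q) (hq : q ≤ q') :
    Fac M q' := by
  obtain ⟨L, R, h⟩ := h
  refine ⟨fun i t => if ht : t.1 < q then L i ⟨t.1, ht⟩ else 0,
    fun t j => if ht : t.1 < q then R ⟨t.1, ht⟩ j else 0, ?_⟩
  intro i j
  rw [h i j]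
  obtain ⟨d, rfl⟩ := Nat.exists_eq_add_of_le hq
  rw [Fin.sum_univ_add]
  simp

lemma Fac.rank_le {I J : Type*} [Fintype I] [Fintype J] {M : I → J → K} {q : ℕ}
    (h : Fac M q) : (Matrix.of M).rank ≤ q := by
  classical
  obtain ⟨L, R, h⟩ := h
  have h1 : Matrix.of M = (Matrix.of L : Matrix I (Fin q) K) * (Matrix.of R) := by
    ext i j
    rw [Matrix.mul_apply]
    exact h i j
  rw [h1]
  exact le_trans (Matrix.rank_mul_le_left _ _) (le_trans (Matrix.rank_le_card_width _) (by simp))

lemma rank_le_of_sum {I J S : Type*} [Fintype I] [Fintype J] [Fintype S] (M : Matrix I J K)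
    (L : I → S → K) (R : S → J → K) (h : ∀ i j, M i j = ∑ t, L i t * R t j) :
    M.rank ≤ Fintype.card S := by
  have h1 : M = (Matrix.of L : Matrix I S K) * (Matrix.of R) := by
    ext i j
    rw [Matrix.mul_apply]
    exact h i j
  rw [h1]
  exact le_trans (Matrix.rank_mul_le_left _ _) (Matrix.rank_le_card_width _)

lemma rank_sum_le {I J S : Type*} [Fintype I] [Fintype J] (s : Finset S) (M : S → Matrix I J K) :
    (∑ t ∈ s, M t).rank ≤ ∑ t ∈ s, (M t).rank := by
  classical
  choose L R h using fun t => fac_rank (M t)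
  refine le_trans (rank_le_of_sum (S := Σ t : s, Fin (M t).rank) _
    (fun i p => L p.1 i p.2) (fun p j => R p.1 p.2 j) ?_) ?_
  · intro i j
    rw [Matrix.sum_apply, ← Finset.sum_coe_sort s, Fintype.sum_sigma]
    exact Finset.sum_congr rfl (fun t _ => h t i j)
  · rw [Fintype.card_sigma]
    simp only [Fintype.card_fin]
    rw [Finset.sum_coe_sort s (fun t => (M t).rank)]

/-- the Kronecker product -/
lemma Fac.kron {I J I' J' : Type*} {M : I → J → K} {N : I' → J' → K} {q q' : ℕ} (h : Fac M q)
    (h' : Fac N q') : Fac (fun (i : I × I') (j : J × J') => M i.1 j.1 * N i.2 j.2) (q * q') := by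
  obtain ⟨L, R, h⟩ := h
  obtain ⟨L', R', h'⟩ := h'
  refine ⟨fun i t => L i.1 (finProdFinEquiv.symm t).1 * L' i.2 (finProdFinEquiv.symm t).2,
    fun t j => R (finProdFinEquiv.symm t).1 j.1 * R' (finProdFinEquiv.symm t).2 j.2, ?_⟩
  intro i j
  beta_reduce
  rw [h, h', Finset.sum_mul_sum, ← Fintype.sum_prod_type', ← finProdFinEquiv.symm.sum_comp]
  exact Finset.sum_congr rfl (fun t _ => by ring)

lemma Fac.comp {I J I' J' : Type*} {M : I → J → K} {q : ℕ} (h : Fac M q) (f : I' → I)
    (g : J' → J) : Fac (fun i j => M (f i) (g j)) q := by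
  obtain ⟨L, R, h⟩ := h
  exact ⟨fun i t => L (f i) t, fun t j => R t (g j), fun i j => h _ _⟩

lemma fac_card {n : ℕ} {J : Type*} (M : Fin n → J → K) : Fac M n := by
  classical
  exact ⟨fun i t => if i = t then 1 else 0, M, fun i j => by simp⟩

lemma fac_one {I J : Type*} (u : I → K) (v : J → K) : Fac (fun i j => u i * v j) 1 :=
  ⟨fun i _ => u i, fun _ j => v j, fun i j => by simp⟩

end Pool.Agent.K6.H30.MMQ
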