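import Mathlib
import Pool.Agent.K6.H30.MMQ.Fac

set_option autoImplicit false

/-! # The sum of the ranks of the linear forms of a matrix multiplication algorithm -/

namespace Pool.Agent.K6.H30.MMQ

open Finset Matrix Polynomial

variable {K : Type*} [Field K]

section

variable {I J L S : Type*} [Fintype I] [Fintype J] [Fintype L] [DecidableEq I] [DecidableEq J]
  [DecidableEq L]

/-- The flattening of a product `a ⊗ b ⊗ c`. -/
def flat (a : I → J → K) (b : J → L → K) (c : L → I → K) : Matrix (I × J × L) (I × J × L) K :=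
  Matrix.of fun x y => a x.1 y.2.1 * b x.2.1 x.2.2 * c y.2.2 y.1

omit [DecidableEq J] [DecidableEq L] in
lemma flat_rank (a : Matrix I J K) (b : J → L → K) (c : L → I → K) :
    (flat a b c).rank ≤ a.rank := by
  classical
  have h : flat a b c = (Matrix.of (fun (x : I × J × L) (i : I) => if x.1 = i then b x.2.1 x.2.2
      else 0)) * a * (Matrix.of (fun (j : J) (y : I × J × L) => if y.2.1 = j then c y.2.2 y.1
      else 0)) := by
    ext x y
    simp only [flat, Matrix.of_apply, Matrix.mul_apply, ite_mul, zero_mul, mul_ite, mul_zero,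
      Finset.sum_ite_eq, Finset.mem_univ, if_true]
    ring
  rw [h]
  exact le_trans (Matrix.rank_mul_le_left _ _) (Matrix.rank_mul_le_right _ _)

omit [DecidableEq I] [DecidableEq J] [DecidableEq L] in
/-- If the sum of the flattenings is nonsingular, then the ranks sum to at least the size. -/
lemma card_le_sum_rank [DecidableEq I] [DecidableEq J] [DecidableEq L] (s : Finset S)
    (a : S → Matrix I J K) (b : S → J → L → K) (c : S → L → I → K)
    (h : (∑ t ∈ s, flat (a t) (b t) (c t)).det ≠ 0) :
    Fintype.card I * (Fintype.card J * Fintype.card L) ≤ ∑ t ∈ s, (a t).rank := by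
  have h1 := Matrix.rank_of_det_ne_zero h
  rw [Fintype.card_prod, Fintype.card_prod] at h1
  rw [← h1]
  exact le_trans (rank_sum_le s _) (Finset.sum_le_sum (fun t _ => flat_rank (a t) (b t) (c t)))

/-- Tensors with the support of the matrix multiplication tensor. -/
theorem sum_rank (s : Finset S)
    (a : S → Matrix I J K) (b : S → Matrix J L K) (c : S → Matrix L I K)
    (h : ∀ i j j' k k' l, (∑ t ∈ s, a t i j * b t j' k * c t k' l ≠ 0) ↔
      (j = j' ∧ k = k' ∧ l = i)) :
    Fintype.card I * (Fintype.card J * Fintype.card L) ≤ ∑ t ∈ s, (a t).rank := by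
  apply card_le_sum_rank s a b c
  have h1 : (∑ t ∈ s, flat (a t) (b t) (c t)) = Matrix.diagonal (fun x : I × J × L =>
      ∑ t ∈ s, a t x.1 x.2.1 * b t x.2.1 x.2.2 * c t x.2.2 x.1) := by
    ext x y
    rw [Matrix.sum_apply, Matrix.diagonal_apply]
    split_ifs with hxy
    · rw [← hxy]; rfl
    · by_contra hne
      obtain ⟨h2, h3, h4⟩ := (h x.1 y.2.1 x.2.1 x.2.2 y.2.2 y.1).mp hne
      exact hxy (Prod.ext h4.symm (Prod.ext h2.symm h3))
  rw [h1, Matrix.det_diagonal]
  refine Finset.prod_ne_zero_iff.mpr (fun x _ => ?_)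
  exact (h x.1 x.2.1 x.2.1 x.2.2 x.2.2 x.1).mpr ⟨rfl, rfl, rfl⟩

/-- All three sides. -/
theorem sum_rank_all (s : Finset S)
    (a : S → Matrix I J K) (b : S → Matrix J L K) (c : S → Matrix L I K)
    (h : ∀ i j j' k k' l, (∑ t ∈ s, a t i j * b t j' k * c t k' l ≠ 0) ↔
      (j = j' ∧ k = k' ∧ l = i)) :
    Fintype.card I * Fintype.card J * Fintype.card L ≤ ∑ t ∈ s, (a t).rank ∧
    Fintype.card I * Fintype.card J * Fintype.card L ≤ ∑ t ∈ s, (b t).rank ∧
    Fintype.card I * Fintype.card J * Fintype.card L ≤ ∑ t ∈ s, (c t).rank := by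
  refine ⟨?_, ?_, ?_⟩
  · rw [mul_assoc]; exact sum_rank s a b c h
  · have := sum_rank s b c a (by
      intro j k k' l l' i
      have h1 : ∑ t ∈ s, b t j k * c t k' l * a t l' i = ∑ t ∈ s, a t l' i * b t j k * c t k' l :=
        Finset.sum_congr rfl (fun t _ => by ring)
      rw [h1, h l' i j k k' l]
      tauto)
    calc _ = Fintype.card J * (Fintype.card L * Fintype.card I) := by ring
      _ ≤ _ := this
  · have := sum_rank s c a b (by
      intro k l l' i i' j
      have h1 : ∑ t ∈ s, c t k l * a t l' i * b t i' j = ∑ t ∈ s, a t l' i * b t i' j * c t k l :=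
        Finset.sum_congr rfl (fun t _ => by ring)
      rw [h1, h l' i i' j k l]
      tauto)
    calc _ = Fintype.card L * (Fintype.card I * Fintype.card J) := by ring
      _ ≤ _ := this

end

/-- Border version: approximate algorithms over the rational functions. -/
theorem border_sum_rank {I J L S : Type*} [Fintype I] [Fintype J] [Fintype L] [DecidableEq I]
    [DecidableEq J] [DecidableEq L] (s : Finset S) (h : ℕ)
    (a : S → Matrix I J K[X]) (b : S → Matrix J L K[X]) (c : S → Matrix L I K[X])
    (P : I → J → J → L → L → I → K[X])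
    (h1 : ∀ i j j' k k' l, ∑ t ∈ s, a t i j * b t j' k * c t k' l = X ^ h * P i j j' k k' l)
    (h2 : ∀ i j j' k k' l, (P i j j' k k' l).eval 0 ≠ 0 ↔ (j = j' ∧ k = k' ∧ l = i)) :
    Fintype.card I * (Fintype.card J * Fintype.card L) ≤
      ∑ t ∈ s, ((a t).map (algebraMap K[X] (RatFunc K))).rank := by
  set φ := algebraMap K[X] (RatFunc K) with hφ
  have hinj : Function.Injective φ := RatFunc.algebraMap_injective K
  apply card_le_sum_rank s (fun t => (a t).map φ) (fun t j k => φ (b t j k))
    (fun t k l => φ (c t k l))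
  set D : Matrix (I × J × L) (I × J × L) K[X] :=
    Matrix.of fun x y => P x.1 y.2.1 x.2.1 x.2.2 y.2.2 y.1 with hD
  have e1 : (∑ t ∈ s, flat ((a t).map φ) (fun j k => φ (b t j k)) (fun k l => φ (c t k l))) =
      ((X ^ h : K[X]) • D).map φ := by
    ext x y
    rw [Matrix.sum_apply, Matrix.map_apply, Matrix.smul_apply, hD, Matrix.of_apply, smul_eq_mul,
      ← h1, map_sum]
    refine Finset.sum_congr rfl (fun t _ => ?_)
    simp only [flat, Matrix.of_apply, Matrix.map_apply, map_mul]
  rw [e1]
  have e2 : (((X ^ h : K[X]) • D).map φ).det = φ ((X ^ h : K[X]) • D).det := by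
    rw [← RingHom.mapMatrix_apply, ← RingHom.map_det]
  rw [e2, Matrix.det_smul, Ne, map_eq_zero_iff φ hinj, mul_eq_zero, not_or]
  refine ⟨pow_ne_zero _ (pow_ne_zero _ X_ne_zero), ?_⟩
  intro hdet
  have e3 : (D.map (Polynomial.evalRingHom (0 : K))).det = 0 := by
    rw [← RingHom.mapMatrix_apply, ← RingHom.map_det, hdet, map_zero]
  have e4 : D.map (Polynomial.evalRingHom (0 : K)) = Matrix.diagonal (fun x : I × J × L =>
      (P x.1 x.2.1 x.2.1 x.2.2 x.2.2 x.1).eval 0) := by
    ext x y
    rw [Matrix.map_apply, Matrix.diagonal_apply, hD, Matrix.of_apply, Polynomial.coe_evalRingHom]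
    split_ifs with hxy
    · rw [← hxy]
    · by_contra hne
      obtain ⟨h3, h4, h5⟩ := (h2 _ _ _ _ _ _).mp hne
      exact hxy (Prod.ext h5.symm (Prod.ext h3.symm h4))
  rw [e4, Matrix.det_diagonal] at e3
  exact Finset.prod_ne_zero_iff.mpr (fun x _ => (h2 _ _ _ _ _ _).mpr ⟨rfl, rfl, rfl⟩) e3

/-- The border version for all three sides. -/
theorem border_sum_rank_all {I J L S : Type*} [Fintype I] [Fintype J] [Fintype L] [DecidableEq I]
    [DecidableEq J] [DecidableEq L] (s : Finset S) (h : ℕ)
    (a : S → Matrix I J K[X]) (b : S → Matrix J L K[X]) (c : S → Matrix L I K[X])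
    (P : I → J → J → L → L → I → K[X])
    (h1 : ∀ i j j' k k' l, ∑ t ∈ s, a t i j * b t j' k * c t k' l = X ^ h * P i j j' k k' l)
    (h2 : ∀ i j j' k k' l, (P i j j' k k' l).eval 0 ≠ 0 ↔ (j = j' ∧ k = k' ∧ l = i)) :
    Fintype.card I * Fintype.card J * Fintype.card L ≤
      ∑ t ∈ s, ((a t).map (algebraMap K[X] (RatFunc K))).rank ∧
    Fintype.card I * Fintype.card J * Fintype.card L ≤
      ∑ t ∈ s, ((b t).map (algebraMap K[X] (RatFunc K))).rank ∧
    Fintype.card I * Fintype.card J * Fintype.card L ≤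
      ∑ t ∈ s, ((c t).map (algebraMap K[X] (RatFunc K))).rank := by
  refine ⟨?_, ?_, ?_⟩
  · rw [mul_assoc]; exact border_sum_rank s h a b c P h1 h2
  · have := border_sum_rank s h b c a (fun j k k' l l' i => P l' i j k k' l) (by
      intro j k k' l l' i
      rw [← h1 l' i j k k' l]
      exact Finset.sum_congr rfl (fun t _ => by ring)) (by
      intro j k k' l l' i
      rw [h2 l' i j k k' l]
      tauto)
    calc _ = Fintype.card J * (Fintype.card L * Fintype.card I) := by ring
      _ ≤ _ := this
  · have := border_sum_rank s h c a b (fun k l l' i i' j => P l' i i' j k l) (by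
      intro k l l' i i' j
      rw [← h1 l' i i' j k l]
      exact Finset.sum_congr rfl (fun t _ => by ring)) (by
      intro k l l' i i' j
      rw [h2 l' i i' j k l]
      tauto)
    calc _ = Fintype.card L * (Fintype.card I * Fintype.card J) := by ring
      _ ≤ _ := this

end Pool.Agent.K6.H30.MMQ
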