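import Mathlib
import Pool.Agent.K6.H30.MMQ.Lower

set_option autoImplicit false

/-! # Decompositions with linear forms of bounded rank: products and the truncated recursion -/

namespace Pool.Agent.K6.H30.MMQ

open Finset Matrix

universe u

/-- A decomposition of the matrix multiplication tensor all of whose matrices have rank at most
`q`. -/
def DecQ (K : Type u) [Field K] (I T : Type) [DecidableEq I] [Fintype T] (q : ℕ) : Prop :=
  ∃ a b c : T → I → I → K, (∀ t, Fac (a t) q ∧ Fac (b t) q ∧ Fac (c t) q) ∧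
    ∀ i j j' k k' l : I, (if j = j' ∧ k = k' ∧ l = i then (1 : K) else 0) =
      ∑ t : T, a t i j * b t j' k * c t k' l

variable {K : Type u} [Field K]

lemma DecQ.congr {I T I' T' : Type} [DecidableEq I] [Fintype T] [DecidableEq I'] [Fintype T']
    {q : ℕ} (e : I' ↪ I) (f : T' ≃ T) (H : DecQ K I T q) : DecQ K I' T' q := by
  obtain ⟨a, b, c, hr, h⟩ := H
  refine ⟨fun t i j => a (f t) (e i) (e j), fun t i j => b (f t) (e i) (e j),
    fun t i j => c (f t) (e i) (e j), fun t => ⟨(hr _).1.comp _ _, (hr _).2.1.comp _ _,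
      (hr _).2.2.comp _ _⟩, ?_⟩
  intro i j j' k k' l
  have := h (e i) (e j) (e j') (e k) (e k') (e l)
  simp only [EmbeddingLike.apply_eq_iff_eq] at this
  rw [this]
  exact (Equiv.sum_comp f (fun t => a t (e i) (e j) * b t (e j') (e k) * c t (e k') (e l))).symm

lemma DecQ.mono {I T : Type} [DecidableEq I] [Fintype T] {q q' : ℕ} (hq : q ≤ q')
    (H : DecQ K I T q) : DecQ K I T q' := by
  obtain ⟨a, b, c, hr, h⟩ := H
  exact ⟨a, b, c, fun t => ⟨(hr t).1.mono hq, (hr t).2.1.mono hq, (hr t).2.2.mono hq⟩, h⟩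

/-- The standard algorithm. -/
lemma decQ_std (I : Type) [DecidableEq I] [Fintype I] : DecQ K I (I × I × I) 1 := by
  refine ⟨fun t i j => (if t.1 = i then 1 else 0) * (if t.2.1 = j then 1 else 0),
    fun t j k => (if t.2.1 = j then 1 else 0) * (if t.2.2 = k then 1 else 0),
    fun t k i => (if t.2.2 = k then 1 else 0) * (if t.1 = i then 1 else 0),
    fun t => ⟨fac_one _ _, fac_one _ _, fac_one _ _⟩, ?_⟩
  intro i j j' k k' l
  rw [Finset.sum_eq_single (i, j, k)]
  · by_cases h1 : j = j' <;> by_cases h2 : k = k' <;> by_cases h3 : l = i <;>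
      simp [h1, h2, h3]
    intro h
    exact absurd h.symm h3
  · rintro ⟨x, y, z⟩ - hne
    by_contra hc
    apply hne
    simp only [mul_ite, mul_one, mul_zero, ite_eq_right_iff,
      one_ne_zero, imp_false, not_not, not_forall, exists_prop] at hc
    aesop
  · simp

/-- Composition: each term of the outer decomposition has its own inner decomposition. -/
lemma DecQ.comp {I J S : Type} [DecidableEq I] [DecidableEq J] [Fintype S] {T : S → Type}
    [∀ s, Fintype (T s)] (a b c : S → I → I → K) (x y : S → ℕ) (q : ℕ)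
    (hr : ∀ s, Fac (a s) (x s) ∧ Fac (b s) (x s) ∧ Fac (c s) (x s))
    (h : ∀ i j j' k k' l : I, (if j = j' ∧ k = k' ∧ l = i then (1 : K) else 0) =
      ∑ t : S, a t i j * b t j' k * c t k' l)
    (H : ∀ s, DecQ K J (T s) (y s)) (hq : ∀ s, x s * y s ≤ q) :
    DecQ K (I × J) (Σ s, T s) q := by
  choose a' b' c' hr' h' using H
  refine ⟨fun t i j => a t.1 i.1 j.1 * a' t.1 t.2 i.2 j.2,
    fun t i j => b t.1 i.1 j.1 * b' t.1 t.2 i.2 j.2,
    fun t i j => c t.1 i.1 j.1 * c' t.1 t.2 i.2 j.2, fun t => ⟨?_, ?_, ?_⟩, ?_⟩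
  · exact ((hr t.1).1.kron (hr' t.1 t.2).1).mono (hq _)
  · exact ((hr t.1).2.1.kron (hr' t.1 t.2).2.1).mono (hq _)
  · exact ((hr t.1).2.2.kron (hr' t.1 t.2).2.2).mono (hq _)
  · intro i j j' k k' l
    rw [Fintype.sum_sigma]
    have e1 : ∀ s : S, ∑ t : T s, (a s i.1 j.1 * a' s t i.2 j.2) * (b s j'.1 k.1 * b' s t j'.2 k.2) *
        (c s k'.1 l.1 * c' s t k'.2 l.2) = (a s i.1 j.1 * b s j'.1 k.1 * c s k'.1 l.1) *
        (if j.2 = j'.2 ∧ k.2 = k'.2 ∧ l.2 = i.2 then (1 : K) else 0) := by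
      intro s
      rw [h' s i.2 j.2 j'.2 k.2 k'.2 l.2, Finset.mul_sum]
      exact Finset.sum_congr rfl (fun t _ => by ring)
    rw [Finset.sum_congr rfl (fun s _ => e1 s), ← Finset.sum_mul,
      ← h i.1 j.1 j'.1 k.1 k'.1 l.1, ite_mul, one_mul, zero_mul, ← ite_and]
    refine if_congr ?_ rfl rfl
    rw [Prod.ext_iff, Prod.ext_iff, Prod.ext_iff]
    tauto

/-- Kronecker products. -/
lemma DecQ.prod {I J S T : Type} [DecidableEq I] [DecidableEq J] [Fintype S] [Fintype T]
    {x y : ℕ} (H : DecQ K I S x) (H' : DecQ K J T y) : DecQ K (I × J) (S × T) (x * y) := by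
  obtain ⟨a, b, c, hr, h⟩ := H
  exact (DecQ.comp (T := fun _ => T) a b c (fun _ => x) (fun _ => y) (x * y) hr h (fun _ => H')
    (fun _ => le_rfl)).congr (Function.Embedding.refl _) (Equiv.sigmaEquivProd S T).symm

/-! ### Strassen's algorithm -/

/-- the left factors of the matrices -/
def sL : Fin 3 → Fin 7 → Fin 2 → Fin 2 → ℤ
  | 0 => ![![![1, 0], ![0, 1]], ![![0, 0], ![1, 1]], ![![1, 0], ![0, 0]], ![![0, 0], ![0, 1]],
      ![![1, 1], ![0, 0]], ![![-1, 0], ![1, 0]], ![![0, 1], ![0, -1]]]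
  | 1 => ![![![1, 0], ![0, 1]], ![![1, 0], ![0, 0]], ![![0, 1], ![0, -1]], ![![-1, 0], ![1, 0]],
      ![![0, 0], ![0, 1]], ![![1, 1], ![0, 0]], ![![0, 0], ![1, 1]]]
  | 2 => ![![![1, 0], ![0, 1]], ![![0, 1], ![0, -1]], ![![0, 0], ![1, 1]], ![![1, 1], ![0, 0]],
      ![![-1, 0], ![1, 0]], ![![0, 0], ![0, 1]], ![![1, 0], ![0, 0]]]

lemma strassen_int : ∀ i j j' k k' l : Fin 2, (if j = j' ∧ k = k' ∧ l = i then (1 : ℤ) else 0) =
    ∑ t : Fin 7, sL 0 t i j * sL 1 t j' k * sL 2 t k' l := by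
  decide

lemma strassen_rank : ∀ (p : Fin 3) (t : Fin 7), t ≠ 0 → ∃ u v : Fin 2 → Fin 3, ∀ i j,
    sL p t i j = ((u i : ℤ) - 1) * ((v j : ℤ) - 1) := by
  decide +kernel

/-- The matrices over the field. -/
def sK (K : Type u) [Field K] (p : Fin 3) (t : Fin 7) (i j : Fin 2) : K := (sL p t i j : K)

/-- The rank bounds of the seven terms. -/
def sr (t : Fin 7) : ℕ := if t = 0 then 2 else 1

lemma sK_rank (p : Fin 3) (t : Fin 7) : Fac (sK K p t) (sr t) := by
  unfold sr
  split_ifs with h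
  · exact fac_card _
  · obtain ⟨u, v, huv⟩ := strassen_rank p t h
    have : sK K p t = fun i j => ((((u i : ℤ) - 1 : ℤ)) : K) * ((((v j : ℤ) - 1 : ℤ)) : K) := by
      funext i j
      unfold sK
      rw [huv i j]
      push_cast
      ring
    rw [this]
    exact fac_one _ _

lemma sK_id (i j j' k k' l : Fin 2) : (if j = j' ∧ k = k' ∧ l = i then (1 : K) else 0) =
    ∑ t : Fin 7, sK K 0 t i j * sK K 1 t j' k * sK K 2 t k' l := by
  have h := congrArg (fun z : ℤ => (z : K)) (strassen_int i j j' k k' l)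
  simp only [Int.cast_ite, Int.cast_one, Int.cast_zero, Int.cast_sum, Int.cast_mul] at h
  exact h

/-- One step of the truncated recursion. -/
lemma step {N r₁ r₂ q : ℕ} (H₁ : DecQ K (Fin N) (Fin r₁) (2 * q))
    (H₂ : DecQ K (Fin N) (Fin r₂) q) : DecQ K (Fin (2 * N)) (Fin (6 * r₁ + r₂)) (2 * q) := by
  set r : Fin 7 → ℕ := Fin.cons r₂ (fun _ => r₁) with hr
  set y : Fin 7 → ℕ := Fin.cons q (fun _ => 2 * q) with hy
  have h0 : DecQ K (Fin 2 × Fin N) (Σ s : Fin 7, Fin (r s)) (2 * q) := by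
    refine DecQ.comp (T := fun s => Fin (r s)) (sK K 0) (sK K 1) (sK K 2) sr y (2 * q)
      (fun s => ⟨sK_rank 0 s, sK_rank 1 s, sK_rank 2 s⟩) sK_id ?_ ?_
    · intro s
      refine Fin.cases ?_ (fun s => ?_) s
      · exact H₂
      · exact H₁
    · intro s
      refine Fin.cases ?_ (fun s => ?_) s
      · simp [sr, hy]
      · simp [sr, hy, Fin.succ_ne_zero]
  have hc : Fintype.card (Σ s : Fin 7, Fin (r s)) = 6 * r₁ + r₂ := by
    rw [Fintype.card_sigma]
    simp only [Fintype.card_fin, hr, Fin.sum_univ_succ, Fin.cons_zero, Fin.cons_succ]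
    simp
    ring
  exact h0.congr (finProdFinEquiv.symm.toEmbedding) (Fintype.equivFinOfCardEq hc).symm

/-- The number of products of the truncated recursion. -/
def num : ℕ → ℕ → ℕ
  | 0, _ => 1
  | k + 1, 0 => 8 ^ (k + 1)
  | k + 1, j + 1 => 6 * num k (j + 1) + num k j

lemma decQ_num : ∀ k j : ℕ, DecQ K (Fin (2 ^ k)) (Fin (num k j)) (2 ^ j)
  | 0, j => by
    have h := decQ_std (K := K) (Fin 1)
    exact (h.congr (Function.Embedding.refl _) (Fintype.equivFinOfCardEq
      (by simp [num])).symm).mono Nat.one_le_two_pow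
  | k + 1, 0 => by
    have h := decQ_std (K := K) (Fin (2 ^ (k + 1)))
    refine h.congr (Function.Embedding.refl _) (Fintype.equivFinOfCardEq ?_).symm
    simp only [Fintype.card_prod, Fintype.card_fin, num]
    rw [show (8 : ℕ) = 2 * 2 * 2 by norm_num, mul_pow, mul_pow]
    ring
  | k + 1, j + 1 => by
    have h1 := decQ_num k (j + 1)
    have h2 := decQ_num k j
    rw [pow_succ' 2 k, pow_succ' 2 j]
    rw [pow_succ' 2 j] at h1
    exact step h1 h2

lemma num_le : ∀ k j : ℕ, 2 ^ j * num k j ≤ 2 ^ j * 7 ^ k + 8 ^ k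
  | 0, j => by simp [num]
  | k + 1, 0 => by
    simp only [num, pow_zero, one_mul]
    exact Nat.le_add_left _ _
  | k + 1, j + 1 => by
    have h1 := num_le k (j + 1)
    have h2 := num_le k j
    simp only [num]
    have e1 : 2 ^ (j + 1) * (6 * num k (j + 1) + num k j) = 6 * (2 ^ (j + 1) * num k (j + 1)) +
      2 * (2 ^ j * num k j) := by ring
    rw [e1]
    calc _ ≤ 6 * (2 ^ (j + 1) * 7 ^ k + 8 ^ k) + 2 * (2 ^ j * 7 ^ k + 8 ^ k) := by gcongr
      _ = 2 ^ (j + 1) * 7 ^ (k + 1) + 8 ^ (k + 1) := by ring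

end Pool.Agent.K6.H30.MMQ
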