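import Mathlib
import Pool.Agent.K6.H30.MMQ.Defs
import Pool.Agent.K6.H30.MMQ.Upper
import Pool.Agent.H515R2.MMR.Rank

set_option autoImplicit false

/-! # Exponents of algorithms with linear forms of bounded rank -/

namespace Pool.Agent.K6.H30.MMQ

open Finset Matrix Pool.Agent.H515R2.MMR

universe u

variable {K : Type u} [Field K]

lemma hasRankQ_iff (n q r : ℕ) : HasRankQ K n q r ↔ DecQ K (Fin n) (Fin r) q := by
  constructor
  · rintro ⟨a, b, c, hr, h⟩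
    exact ⟨a, b, c, fun t => ⟨(fac_rank _).mono (hr t).1, (fac_rank _).mono (hr t).2.1,
      (fac_rank _).mono (hr t).2.2⟩, h⟩
  · rintro ⟨a, b, c, hr, h⟩
    exact ⟨fun t => Matrix.of (a t), fun t => Matrix.of (b t), fun t => Matrix.of (c t),
      fun t => ⟨(hr t).1.rank_le, (hr t).2.1.rank_le, (hr t).2.2.rank_le⟩, h⟩

lemma hasRankQ_cube {n q : ℕ} (hq : 1 ≤ q) : HasRankQ K n q (n ^ 3) := by
  rw [hasRankQ_iff]
  refine ((decQ_std (K := K) (Fin n)).mono hq).congr (Function.Embedding.refl _)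
    (Fintype.equivFinOfCardEq ?_).symm
  simp only [Fintype.card_prod, Fintype.card_fin]
  ring

lemma rkQ_le {n q r : ℕ} (h : HasRankQ K n q r) : rkQ K n q ≤ r := Nat.sInf_le h

lemma hasRankQ_rkQ {n q : ℕ} (hq : 1 ≤ q) : HasRankQ K n q (rkQ K n q) :=
  Nat.sInf_mem (s := {r : ℕ | HasRankQ K n q r}) ⟨_, hasRankQ_cube hq⟩

lemma cube_le {n q r : ℕ} (h : HasRankQ K n q r) : n ^ 3 ≤ r * q := by
  obtain ⟨a, b, c, hr, h⟩ := h
  have h1 := sum_rank (K := K) (Finset.univ : Finset (Fin r)) a b c (by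
    intro i j j' k k' l
    rw [← h i j j' k k' l]
    split_ifs with hc
    · simp [hc]
    · simp only [ne_eq, not_true_eq_false, false_iff]
      exact hc)
  simp only [Fintype.card_fin] at h1
  calc n ^ 3 = n * (n * n) := by ring
    _ ≤ ∑ t : Fin r, (a t).rank := h1
    _ ≤ ∑ _t : Fin r, q := Finset.sum_le_sum (fun t _ => (hr t).1)
    _ = r * q := by simp

lemma rkQ_anti {n q q' : ℕ} (hq : 1 ≤ q) (h : q ≤ q') : rkQ K n q' ≤ rkQ K n q := by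
  apply rkQ_le
  have := hasRankQ_rkQ (K := K) (n := n) hq
  rw [hasRankQ_iff] at *
  exact this.mono h

lemma rkQ_mono {n N q : ℕ} (hq : 1 ≤ q) (h : n ≤ N) : rkQ K n q ≤ rkQ K N q := by
  apply rkQ_le
  have := hasRankQ_rkQ (K := K) (n := N) hq
  rw [hasRankQ_iff] at *
  exact this.congr (Fin.castLEEmb h) (Equiv.refl _)

lemma rkQ_mul {n₁ n₂ q₁ q₂ : ℕ} (h₁ : 1 ≤ q₁) (h₂ : 1 ≤ q₂) :
    rkQ K (n₁ * n₂) (q₁ * q₂) ≤ rkQ K n₁ q₁ * rkQ K n₂ q₂ := by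
  apply rkQ_le
  have e1 := hasRankQ_rkQ (K := K) (n := n₁) h₁
  have e2 := hasRankQ_rkQ (K := K) (n := n₂) h₂
  rw [hasRankQ_iff] at *
  exact (e1.prod e2).congr finProdFinEquiv.symm.toEmbedding finProdFinEquiv.symm

lemma rkQ_pow_two (k j : ℕ) : rkQ K (2 ^ k) (2 ^ j) ≤ num k j := by
  apply rkQ_le
  rw [hasRankQ_iff]
  exact decQ_num k j

/-- The bounds for powers of two. -/
theorem pow_two_bounds (k j : ℕ) : 8 ^ k ≤ 2 ^ j * rkQ K (2 ^ k) (2 ^ j) ∧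
    2 ^ j * rkQ K (2 ^ k) (2 ^ j) ≤ 8 ^ k + 2 ^ j * 7 ^ k := by
  constructor
  · have h1 := cube_le (hasRankQ_rkQ (K := K) (n := 2 ^ k) (q := 2 ^ j) Nat.one_le_two_pow)
    calc 8 ^ k = (2 ^ k) ^ 3 := by rw [← pow_mul, mul_comm, pow_mul]; norm_num
      _ ≤ _ := h1
      _ = _ := mul_comm _ _
  · calc _ ≤ 2 ^ j * num k j := Nat.mul_le_mul_left _ (rkQ_pow_two k j)
      _ ≤ 2 ^ j * 7 ^ k + 8 ^ k := num_le k j
      _ = _ := add_comm _ _

/-- The bounds for all sizes. -/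
theorem bounds {n q : ℕ} (hn : 1 ≤ n) (hq : 1 ≤ q) :
    (n : ℝ) ^ 3 / q ≤ rkQ K n q ∧
    (rkQ K n q : ℝ) ≤ 16 * ((n : ℝ) ^ 3 / q) + 7 * (n : ℝ) ^ (Real.logb 2 7) := by
  have hq0 : (0 : ℝ) < q := by exact_mod_cast hq
  have hn0 : (0 : ℝ) < n := by exact_mod_cast hn
  constructor
  · rw [div_le_iff₀ hq0]
    exact_mod_cast cube_le (hasRankQ_rkQ (K := K) (n := n) hq)
  · set m := Nat.log 2 n with hm
    set j := Nat.log 2 q with hj
    have h1 : 2 ^ m ≤ n := Nat.pow_log_le_self 2 (by omega)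
    have h2 : n < 2 ^ (m + 1) := Nat.lt_pow_succ_log_self (by norm_num) n
    have h3 : 2 ^ j ≤ q := Nat.pow_log_le_self 2 (by omega)
    have h4 : q < 2 ^ (j + 1) := Nat.lt_pow_succ_log_self (by norm_num) q
    have h5 : rkQ K n q ≤ rkQ K (2 ^ (m + 1)) (2 ^ j) :=
      le_trans (rkQ_mono hq h2.le) (rkQ_anti Nat.one_le_two_pow h3)
    have h6 := (pow_two_bounds (K := K) (m + 1) j).2
    have h7 : (2 : ℝ) ^ j * rkQ K (2 ^ (m + 1)) (2 ^ j) ≤ 8 ^ (m + 1) + 2 ^ j * 7 ^ (m + 1) := by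
      exact_mod_cast h6
    have hj0 : (0 : ℝ) < 2 ^ j := by positivity
    have h8 : (rkQ K (2 ^ (m + 1)) (2 ^ j) : ℝ) ≤ 8 ^ (m + 1) / 2 ^ j + 7 ^ (m + 1) := by
      rw [← sub_le_iff_le_add, le_div_iff₀ hj0]
      nlinarith
    have h9 : (2 : ℝ) ^ m ≤ n := by exact_mod_cast h1
    have h10 : (8 : ℝ) ^ (m + 1) ≤ 8 * (n : ℝ) ^ 3 := by
      have : (8 : ℝ) ^ (m + 1) = 8 * (2 ^ m) ^ 3 := by
        rw [pow_succ, mul_comm, ← pow_mul, mul_comm m 3, pow_mul]; norm_num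
      rw [this]
      gcongr
    have h11 : (8 : ℝ) ^ (m + 1) / 2 ^ j ≤ 16 * ((n : ℝ) ^ 3 / q) := by
      have h12 : (q : ℝ) ≤ 2 * 2 ^ j := by
        have : q ≤ 2 * 2 ^ j := by rw [pow_succ'] at h4; omega
        exact_mod_cast this
      rw [div_le_iff₀ hj0, mul_assoc, div_mul_eq_mul_div, ← mul_div_assoc, le_div_iff₀ hq0]
      have hn3 : (0 : ℝ) < (n : ℝ) ^ 3 := by positivity
      nlinarith [mul_le_mul h10 h12 (le_of_lt hq0) (by positivity)]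
    have h13 : (7 : ℝ) ^ (m + 1) ≤ 7 * (n : ℝ) ^ (Real.logb 2 7) := by
      rw [pow_succ, mul_comm]
      have h14 : (7 : ℝ) ^ m = ((2 : ℝ) ^ m) ^ (Real.logb 2 7) := by
        rw [← Real.rpow_natCast 2 m, ← Real.rpow_mul (by norm_num), mul_comm, Real.rpow_mul
          (by norm_num), Real.rpow_logb (by norm_num) (by norm_num) (by norm_num),
          Real.rpow_natCast]
      rw [h14]
      have : 0 ≤ Real.logb 2 7 := Real.logb_nonneg (by norm_num) (by norm_num)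
      gcongr
    have h15 : (rkQ K n q : ℝ) ≤ rkQ K (2 ^ (m + 1)) (2 ^ j) := by exact_mod_cast h5
    linarith

lemma rkQ_self (n : ℕ) (hn : 1 ≤ n) : rkQ ℂ n n = rk n := by
  apply le_antisymm
  · apply rkQ_le
    obtain ⟨a, b, c, h⟩ := hasRank_rk n
    rw [hasRankQ_iff]
    exact ⟨a, b, c, fun t => ⟨fac_card _, fac_card _, fac_card _⟩, h⟩
  · apply rk_le
    obtain ⟨a, b, c, -, h⟩ := hasRankQ_rkQ (K := ℂ) (n := n) hn
    exact ⟨a, b, c, h⟩

end Pool.Agent.K6.H30.MMQ
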