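import Mathlib
import Pool.Agent.K6.H30.MMQ.Exp

set_option autoImplicit false

/-! # The exponent of algorithms with linear forms of rank at most `n ^ ρ` -/

namespace Pool.Agent.K6.H30.MMQ

open Finset Matrix Pool.Agent.H515R2.MMR

/-- `τ` is admissible for `ρ`. -/
def Ad (ρ τ : ℝ) : Prop :=
  ∃ C : ℝ, ∀ n : ℕ, 1 ≤ n → (rkQ ℂ n ⌊(n : ℝ) ^ ρ⌋₊ : ℝ) ≤ C * (n : ℝ) ^ τ

lemma omegaQ_eq (ρ : ℝ) : omegaQ ρ = sInf {τ : ℝ | Ad ρ τ} := rfl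

lemma one_le_floor {n : ℕ} (hn : 1 ≤ n) {ρ : ℝ} (hρ : 0 ≤ ρ) : 1 ≤ ⌊(n : ℝ) ^ ρ⌋₊ := by
  rw [Nat.one_le_floor_iff]
  exact Real.one_le_rpow (by exact_mod_cast hn) hρ

/-- no bounded function is a positive power -/
lemma nonpos_of_bounded {δ C : ℝ} (h : ∀ n : ℕ, 1 ≤ n → (n : ℝ) ^ δ ≤ C) : δ ≤ 0 := by
  by_contra hδ
  push Not at hδ
  have h8 := (tendsto_rpow_atTop hδ).comp tendsto_natCast_atTop_atTop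
  have h9 := h8.eventually_gt_atTop C
  obtain ⟨n, hn1, hn2⟩ := (h9.and (Filter.eventually_ge_atTop 1)).exists
  exact absurd (h n hn2) (not_le.mpr hn1)

lemma Ad.lower {ρ τ : ℝ} (hρ : 0 ≤ ρ) (h : Ad ρ τ) : 3 - ρ ≤ τ := by
  obtain ⟨C, h⟩ := h
  have h1 : (3 - ρ) - τ ≤ 0 := by
    apply nonpos_of_bounded (C := C)
    intro n hn
    have hn0 : (0 : ℝ) < n := by exact_mod_cast hn
    have hq := one_le_floor hn hρ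
    have h2 := (bounds (K := ℂ) hn hq).1
    have h3 := h n hn
    have h4 : (⌊(n : ℝ) ^ ρ⌋₊ : ℝ) ≤ (n : ℝ) ^ ρ := Nat.floor_le (by positivity)
    have hq0 : (0 : ℝ) < (⌊(n : ℝ) ^ ρ⌋₊ : ℝ) := by exact_mod_cast hq
    have h5 : (n : ℝ) ^ (3 - ρ) ≤ C * (n : ℝ) ^ τ := by
      refine le_trans ?_ (le_trans h2 h3)
      rw [Real.rpow_sub hn0]
      have : (n : ℝ) ^ (3 : ℝ) = (n : ℝ) ^ 3 := by
        rw [← Real.rpow_natCast]; norm_num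
      rw [this]
      gcongr
    rw [Real.rpow_sub hn0, div_le_iff₀ (by positivity)]
    exact h5
  linarith

lemma Ad.mono {ρ ρ' τ : ℝ} (hρ : 0 ≤ ρ) (hρ' : ρ ≤ ρ') (h : Ad ρ τ) : Ad ρ' τ := by
  obtain ⟨C, h⟩ := h
  refine ⟨C, fun n hn => le_trans ?_ (h n hn)⟩
  have hn1 : (1 : ℝ) ≤ n := by exact_mod_cast hn
  have := rkQ_anti (K := ℂ) (n := n) (one_le_floor hn hρ)
    (Nat.floor_le_floor (Real.rpow_le_rpow_of_exponent_le hn1 hρ'))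
  exact_mod_cast this

lemma Ad.up {ρ τ τ' : ℝ} (hτ : τ ≤ τ') (h : Ad ρ τ) : Ad ρ τ' := by
  obtain ⟨C, h⟩ := h
  refine ⟨C, fun n hn => le_trans (h n hn) ?_⟩
  have hn1 : (1 : ℝ) ≤ n := by exact_mod_cast hn
  have hC : 0 ≤ C := by
    have := h 1 le_rfl
    simp only [Nat.cast_one, Real.one_rpow, mul_one] at this
    exact le_trans (Nat.cast_nonneg _) this
  gcongr

lemma ad_three {ρ : ℝ} (hρ : 0 ≤ ρ) : Ad ρ 3 := by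
  refine ⟨1, fun n hn => ?_⟩
  rw [one_mul]
  have h1 := rkQ_le (hasRankQ_cube (K := ℂ) (n := n) (one_le_floor hn hρ))
  have h2 : (n : ℝ) ^ (3 : ℝ) = ((n ^ 3 : ℕ) : ℝ) := by
    rw [Nat.cast_pow, ← Real.rpow_natCast]; norm_num
  rw [h2]
  exact_mod_cast h1

lemma bddBelow {ρ : ℝ} (hρ : 0 ≤ ρ) : BddBelow {τ : ℝ | Ad ρ τ} :=
  ⟨3 - ρ, fun _ h => Ad.lower hρ h⟩

lemma omegaQ_le {ρ τ : ℝ} (hρ : 0 ≤ ρ) (h : Ad ρ τ) : omegaQ ρ ≤ τ := csInf_le (bddBelow hρ) h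

lemma le_omegaQ {ρ τ : ℝ} (hρ : 0 ≤ ρ) (h : ∀ τ', Ad ρ τ' → τ ≤ τ') : τ ≤ omegaQ ρ :=
  le_csInf ⟨3, ad_three hρ⟩ h

lemma ad_of_lt {ρ τ : ℝ} (hρ : 0 ≤ ρ) (h : omegaQ ρ < τ) : Ad ρ τ := by
  obtain ⟨τ', h1, h2⟩ := exists_lt_of_csInf_lt ⟨3, ad_three hρ⟩ h
  exact Ad.up h2.le h1

/-- the truncated recursion -/
lemma ad_strassen {ρ : ℝ} (hρ : 0 ≤ ρ) (hρ' : ρ ≤ 3 - Real.logb 2 7) : Ad ρ (3 - ρ) := by
  refine ⟨39, fun n hn => ?_⟩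
  have hn1 : (1 : ℝ) ≤ n := by exact_mod_cast hn
  have hn0 : (0 : ℝ) < n := by linarith
  have hq := one_le_floor hn hρ
  have h2 := (bounds (K := ℂ) hn hq).2
  have hq1 : (1 : ℝ) ≤ (⌊(n : ℝ) ^ ρ⌋₊ : ℝ) := by exact_mod_cast hq
  have h3 : (n : ℝ) ^ ρ ≤ 2 * ⌊(n : ℝ) ^ ρ⌋₊ := by
    have := Nat.lt_floor_add_one ((n : ℝ) ^ ρ)
    linarith
  have h4 : (n : ℝ) ^ 3 / ⌊(n : ℝ) ^ ρ⌋₊ ≤ 2 * (n : ℝ) ^ (3 - ρ) := by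
    rw [div_le_iff₀ (by linarith)]
    have : (n : ℝ) ^ 3 = (n : ℝ) ^ (3 - ρ) * (n : ℝ) ^ ρ := by
      rw [← Real.rpow_add hn0, ← Real.rpow_natCast]; norm_num
    rw [this]
    have h5 : 0 < (n : ℝ) ^ (3 - ρ) := by positivity
    nlinarith
  have h6 : (n : ℝ) ^ (Real.logb 2 7) ≤ (n : ℝ) ^ (3 - ρ) :=
    Real.rpow_le_rpow_of_exponent_le hn1 (by linarith)
  linarith

/-- convexity of the admissible pairs -/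
lemma Ad.convex {ρ₁ ρ₂ τ₁ τ₂ α β : ℝ} (h₁ : Ad ρ₁ τ₁) (h₂ : Ad ρ₂ τ₂) (hρ₁ : 0 ≤ ρ₁)
    (hρ₂ : 0 ≤ ρ₂) (hτ₁ : 0 ≤ τ₁) (hτ₂ : 0 ≤ τ₂) (hα : 0 ≤ α) (hβ : 0 ≤ β) (hαβ : α + β = 1) :
    Ad (α * ρ₁ + β * ρ₂) (α * τ₁ + β * τ₂) := by
  obtain ⟨C₁, h₁⟩ := h₁
  obtain ⟨C₂, h₂⟩ := h₂
  refine ⟨64 * (C₁ * C₂), fun n hn => ?_⟩
  have hn1 : (1 : ℝ) ≤ n := by exact_mod_cast hn
  have hn0 : (0 : ℝ) < n := by linarith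
  set n₁ := ⌊(n : ℝ) ^ α⌋₊ with hn₁
  set n₂ := ⌊(n : ℝ) ^ β⌋₊ with hn₂
  have g₁ : 1 ≤ n₁ := one_le_floor hn hα
  have g₂ : 1 ≤ n₂ := one_le_floor hn hβ
  have g₁' : (1 : ℝ) ≤ n₁ := by exact_mod_cast g₁
  have g₂' : (1 : ℝ) ≤ n₂ := by exact_mod_cast g₂
  have f₁ : (n₁ : ℝ) ≤ (n : ℝ) ^ α := Nat.floor_le (by positivity)
  have f₂ : (n₂ : ℝ) ≤ (n : ℝ) ^ β := Nat.floor_le (by positivity)
  have e₁ : (n : ℝ) ^ α ≤ 2 * n₁ := by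
    have := Nat.lt_floor_add_one ((n : ℝ) ^ α)
    linarith
  have e₂ : (n : ℝ) ^ β ≤ 2 * n₂ := by
    have := Nat.lt_floor_add_one ((n : ℝ) ^ β)
    linarith
  have hN : n ≤ 4 * (n₁ * n₂) := by
    have : (n : ℝ) ≤ 4 * (n₁ * n₂) := by
      calc (n : ℝ) = (n : ℝ) ^ (α + β) := by rw [hαβ, Real.rpow_one]
        _ = (n : ℝ) ^ α * (n : ℝ) ^ β := Real.rpow_add hn0 _ _
        _ ≤ (2 * n₁) * (2 * n₂) := by gcongr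
        _ = _ := by ring
    exact_mod_cast this
  set q₁ := ⌊(n₁ : ℝ) ^ ρ₁⌋₊ with hq₁
  set q₂ := ⌊(n₂ : ℝ) ^ ρ₂⌋₊ with hq₂
  have k₁ : 1 ≤ q₁ := one_le_floor g₁ hρ₁
  have k₂ : 1 ≤ q₂ := one_le_floor g₂ hρ₂
  have l₁ : (q₁ : ℝ) ≤ (n₁ : ℝ) ^ ρ₁ := Nat.floor_le (by positivity)
  have l₂ : (q₂ : ℝ) ≤ (n₂ : ℝ) ^ ρ₂ := Nat.floor_le (by positivity)
  have hq : q₁ * q₂ ≤ ⌊(n : ℝ) ^ (α * ρ₁ + β * ρ₂)⌋₊ := by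
    apply Nat.le_floor
    rw [Nat.cast_mul]
    calc (q₁ : ℝ) * q₂ ≤ (n₁ : ℝ) ^ ρ₁ * (n₂ : ℝ) ^ ρ₂ := by gcongr
      _ ≤ ((n : ℝ) ^ α) ^ ρ₁ * ((n : ℝ) ^ β) ^ ρ₂ := by gcongr
      _ = (n : ℝ) ^ (α * ρ₁ + β * ρ₂) := by
        rw [← Real.rpow_mul hn0.le, ← Real.rpow_mul hn0.le, Real.rpow_add hn0]
  have hk : 1 ≤ q₁ * q₂ := Nat.one_le_iff_ne_zero.mpr (Nat.mul_ne_zero (by omega) (by omega))
  have m1 : rkQ ℂ n ⌊(n : ℝ) ^ (α * ρ₁ + β * ρ₂)⌋₊ ≤ 64 * (rkQ ℂ n₁ q₁ * rkQ ℂ n₂ q₂) :=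
    calc rkQ ℂ n ⌊(n : ℝ) ^ (α * ρ₁ + β * ρ₂)⌋₊ ≤ rkQ ℂ n (q₁ * q₂) := rkQ_anti hk hq
      _ ≤ rkQ ℂ (4 * (n₁ * n₂)) (q₁ * q₂) := rkQ_mono hk hN
      _ = rkQ ℂ (4 * (n₁ * n₂)) (1 * (q₁ * q₂)) := by rw [one_mul]
      _ ≤ rkQ ℂ 4 1 * rkQ ℂ (n₁ * n₂) (q₁ * q₂) := rkQ_mul le_rfl hk
      _ ≤ 64 * (rkQ ℂ n₁ q₁ * rkQ ℂ n₂ q₂) :=
        Nat.mul_le_mul (rkQ_le (hasRankQ_cube (n := 4) le_rfl)) (rkQ_mul k₁ k₂)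
  have m2 : (rkQ ℂ n ⌊(n : ℝ) ^ (α * ρ₁ + β * ρ₂)⌋₊ : ℝ) ≤
      64 * ((rkQ ℂ n₁ q₁ : ℝ) * rkQ ℂ n₂ q₂) := by exact_mod_cast m1
  have c₁ : 0 ≤ C₁ := by
    have := h₁ 1 le_rfl
    simp only [Nat.cast_one, Real.one_rpow, mul_one] at this
    exact le_trans (Nat.cast_nonneg _) this
  have c₂ : 0 ≤ C₂ := by
    have := h₂ 1 le_rfl
    simp only [Nat.cast_one, Real.one_rpow, mul_one] at this
    exact le_trans (Nat.cast_nonneg _) this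
  calc (rkQ ℂ n ⌊(n : ℝ) ^ (α * ρ₁ + β * ρ₂)⌋₊ : ℝ)
      ≤ 64 * ((rkQ ℂ n₁ q₁ : ℝ) * rkQ ℂ n₂ q₂) := m2
    _ ≤ 64 * ((C₁ * (n₁ : ℝ) ^ τ₁) * (C₂ * (n₂ : ℝ) ^ τ₂)) := by
      have := h₁ n₁ g₁
      have := h₂ n₂ g₂
      gcongr
    _ ≤ 64 * ((C₁ * ((n : ℝ) ^ α) ^ τ₁) * (C₂ * ((n : ℝ) ^ β) ^ τ₂)) := by gcongr
    _ = 64 * (C₁ * C₂) * (n : ℝ) ^ (α * τ₁ + β * τ₂) := by
      rw [← Real.rpow_mul hn0.le, ← Real.rpow_mul hn0.le, Real.rpow_add hn0]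
      ring

lemma one_le_rkQ {n q : ℕ} (hn : 1 ≤ n) (hq : 1 ≤ q) : 1 ≤ rkQ ℂ n q := by
  have h1 := cube_le (hasRankQ_rkQ (K := ℂ) (n := n) hq)
  have h2 : 1 ≤ n ^ 3 := Nat.one_le_pow _ _ hn
  by_contra h
  have h3 : rkQ ℂ n q = 0 := by omega
  rw [h3, zero_mul] at h1
  omega

lemma Ad.nonneg {ρ τ : ℝ} (hρ : 0 ≤ ρ) (h : Ad ρ τ) : 0 ≤ τ := by
  obtain ⟨C, h⟩ := h
  have : 0 - τ ≤ 0 := by
    apply nonpos_of_bounded (C := C)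
    intro n hn
    have hn0 : (0 : ℝ) < n := by exact_mod_cast hn
    have h1 : (1 : ℝ) ≤ rkQ ℂ n ⌊(n : ℝ) ^ ρ⌋₊ := by
      exact_mod_cast one_le_rkQ hn (one_le_floor hn hρ)
    have h2 := h n hn
    rw [zero_sub, Real.rpow_neg hn0.le, inv_le_iff_one_le_mul₀ (by positivity)]
    linarith
  linarith

theorem omegaQ_convex : ConvexOn ℝ (Set.Ici 0) omegaQ := by
  refine ⟨convex_Ici 0, ?_⟩
  intro ρ₁ hρ₁ ρ₂ hρ₂ α β hα hβ hαβ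
  simp only [smul_eq_mul]
  have hρ₁' : 0 ≤ ρ₁ := hρ₁
  have hρ₂' : 0 ≤ ρ₂ := hρ₂
  have hρ : 0 ≤ α * ρ₁ + β * ρ₂ := by positivity
  apply le_of_forall_pos_le_add
  intro ε hε
  have h1 := ad_of_lt hρ₁' (lt_add_of_pos_right (omegaQ ρ₁) hε)
  have h2 := ad_of_lt hρ₂' (lt_add_of_pos_right (omegaQ ρ₂) hε)
  have h3 := omegaQ_le hρ (h1.convex h2 hρ₁' hρ₂' (h1.nonneg hρ₁') (h2.nonneg hρ₂') hα hβ hαβ)
  calc omegaQ (α * ρ₁ + β * ρ₂) ≤ α * (omegaQ ρ₁ + ε) + β * (omegaQ ρ₂ + ε) := h3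
    _ = α * omegaQ ρ₁ + β * omegaQ ρ₂ + (α + β) * ε := by ring
    _ = _ := by rw [hαβ, one_mul]

theorem omegaQ_antitone : AntitoneOn omegaQ (Set.Ici 0) := by
  intro ρ₁ hρ₁ ρ₂ _ h
  have hρ₁' : 0 ≤ ρ₁ := hρ₁
  exact csInf_le_csInf (bddBelow (hρ₁'.trans h)) ⟨3, ad_three hρ₁'⟩ (fun τ hτ => Ad.mono hρ₁' h hτ)

theorem lower {ρ : ℝ} (hρ : 0 ≤ ρ) : 3 - ρ ≤ omegaQ ρ := le_omegaQ hρ (fun _ h => h.lower hρ)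

theorem omegaQ_zero : omegaQ 0 = 3 := by
  apply le_antisymm (omegaQ_le le_rfl (ad_three le_rfl))
  have := lower (ρ := 0) le_rfl
  linarith

theorem omegaQ_small {ρ : ℝ} (hρ : 0 ≤ ρ) (hρ' : ρ ≤ 3 - Real.logb 2 7) : omegaQ ρ = 3 - ρ :=
  le_antisymm (omegaQ_le hρ (ad_strassen hρ hρ')) (lower hρ)

/-- For the full range the exponent is the exponent of matrix multiplication. -/
theorem omegaQ_one : omegaQ 1 = omega := by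
  have h1 : ∀ τ, Ad 1 τ ↔ ∃ C : ℝ, ∀ n : ℕ, 1 ≤ n → (rk n : ℝ) ≤ C * (n : ℝ) ^ τ := by
    intro τ
    have e : ∀ n : ℕ, 1 ≤ n → rkQ ℂ n ⌊(n : ℝ) ^ (1 : ℝ)⌋₊ = rk n := by
      intro n hn
      rw [Real.rpow_one, Nat.floor_natCast]
      exact rkQ_self n hn
    constructor
    · rintro ⟨C, h⟩
      exact ⟨C, fun n hn => by rw [← e n hn]; exact h n hn⟩
    · rintro ⟨C, h⟩
      exact ⟨C, fun n hn => by rw [e n hn]; exact h n hn⟩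
  have h0 : rk 0 = 0 := Nat.le_zero.mp (by simpa using rk_le (hasRank_cube 0))
  have h2 : {τ : ℝ | Ad 1 τ} = {τ : ℝ | ∃ C : ℝ, ∀ n : ℕ, (rk n : ℝ) ≤ C * (n : ℝ) ^ τ} := by
    ext τ
    change Ad 1 τ ↔ _
    constructor
    · intro h
      obtain ⟨C, h⟩ := (h1 τ).mp h
      have hC : 0 ≤ C := by
        have := h 1 le_rfl
        simp only [Nat.cast_one, Real.one_rpow, mul_one] at this
        exact le_trans (Nat.cast_nonneg _) this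
      refine ⟨C, fun n => ?_⟩
      rcases Nat.eq_zero_or_pos n with rfl | hn
      · rw [h0, Nat.cast_zero]
        positivity
      · exact h n hn
    · rintro ⟨C, h⟩
      exact (h1 τ).mpr ⟨C, fun n _ => h n⟩
  rw [omegaQ_eq, h2]
  rfl

theorem omega_le_omegaQ {ρ : ℝ} (hρ : 0 ≤ ρ) (hρ' : ρ ≤ 1) : omega ≤ omegaQ ρ := by
  rw [← omegaQ_one]
  exact omegaQ_antitone hρ (zero_le_one' ℝ) hρ'

theorem omegaQ_interp {ρ : ℝ} (hρ : 0 ≤ ρ) (hρ' : ρ ≤ 1) : omegaQ ρ ≤ 3 - (3 - omega) * ρ := by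
  have h := omegaQ_convex.2 (Set.mem_Ici.mpr le_rfl) (Set.mem_Ici.mpr (zero_le_one' ℝ))
    (sub_nonneg.mpr hρ') hρ (by ring)
  simp only [smul_eq_mul, mul_zero, mul_one, zero_add] at h
  rw [omegaQ_zero, omegaQ_one] at h
  linarith

theorem two_le_omega : 2 ≤ omega := by
  have := lower (ρ := 1) zero_le_one
  rw [omegaQ_one] at this
  linarith

/-- The exponent is two if and only if the flattening bound is sharp for all `ρ < 1`. -/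
theorem omega_two_iff : omega = 2 ↔ ∀ ρ : ℝ, 0 ≤ ρ → ρ < 1 → omegaQ ρ = 3 - ρ := by
  constructor
  · intro h ρ hρ hρ'
    apply le_antisymm _ (lower hρ)
    have := omegaQ_interp hρ hρ'.le
    rw [h] at this
    linarith
  · intro h
    apply le_antisymm _ two_le_omega
    apply le_of_forall_pos_le_add
    intro ε hε
    have h1 : 0 ≤ max 0 (1 - ε) := le_max_left _ _
    have h2 : max 0 (1 - ε) < 1 := max_lt one_pos (by linarith)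
    have h3 := omega_le_omegaQ h1 h2.le
    rw [h _ h1 h2] at h3
    have h4 : 1 - ε ≤ max 0 (1 - ε) := le_max_right _ _
    linarith

end Pool.Agent.K6.H30.MMQ
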