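import Mathlib
import Pool.Agent.K6.H30.MMQ.Omega

set_option autoImplicit false

/-!
# The exponent of matrix multiplication algorithms whose linear forms have small rank

A bilinear algorithm for the product of `n × n` matrices `X`, `Y` multiplies linear forms
`∑ a i j X i j` and `∑ b j k Y j k` and adds multiples `c k i` of the products to the entries of the
result.  The coefficients of each of its products are three `n × n` matrices `a`, `b`, `c`.  In the
standard algorithm their ranks are one and there are `n ^ 3` products.  Let `rkQ K n q` be the least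
number of products of an algorithm over `K` all of whose matrices `a`, `b`, `c` have rank at most
`q`; it is at least `n ^ 3 / q`, since the ranks of the matrices `a` of every algorithm have a sum
of at least `n ^ 3` (starting file `MP_e72dc0_lc.RankOfForms`).

1. This bound is asymptotically sharp for small `q`: for `n = 2 ^ k`, `q = 2 ^ j` we have
   `n ^ 3 / q ≤ rkQ K n q ≤ n ^ 3 / q + n ^ (log₂ 7)`, over every field.  (Use Strassen's recursion,
   in which one of the seven products has rank two and the others have rank one, and continue with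
   the standard algorithm as soon as the rank `q` is reached.)
2. Let `omegaQ ρ` be the exponent over `ℂ` of the algorithms with matrices of rank at most `n ^ ρ`.
   It is a convex decreasing function with `omegaQ 0 = 3` and `omegaQ 1 = ω`, the exponent of matrix
   multiplication, and `max (3 - ρ) ω ≤ omegaQ ρ ≤ 3 - (3 - ω) ρ` for `0 ≤ ρ ≤ 1`.
3. `omegaQ ρ = 3 - ρ` for `0 ≤ ρ ≤ 3 - log₂ 7 = 0.19...`.
4. `ω = 2` if and only if `omegaQ ρ = 3 - ρ` for all `0 ≤ ρ < 1`.

So `ω = 2` says that the equality in 3 holds in the whole range.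

Definitions: `HasRankQ`, `rkQ`, `omegaQ` are in `Pool.Agent.K6.H30.MMQ.Defs`, `omega` (the exponent of
matrix multiplication) is in the starting file `Pool.Agent.H515R2.MMR.Rank`.
-/

namespace Pool.Agent.Results.MP_39ba8f_lc.RankRestrictedExponent

open Pool.Agent.K6.H30.MMQ Pool.Agent.H515R2.MMR

universe u

theorem result :
    (∀ (K : Type u) [Field K] (k j : ℕ), 8 ^ k ≤ 2 ^ j * rkQ K (2 ^ k) (2 ^ j) ∧
      2 ^ j * rkQ K (2 ^ k) (2 ^ j) ≤ 8 ^ k + 2 ^ j * 7 ^ k) ∧
    (∀ (K : Type u) [Field K] (n q : ℕ), 1 ≤ n → 1 ≤ q → (n : ℝ) ^ 3 / q ≤ rkQ K n q ∧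
      (rkQ K n q : ℝ) ≤ 16 * ((n : ℝ) ^ 3 / q) + 7 * (n : ℝ) ^ (Real.logb 2 7)) ∧
    (omegaQ 0 = 3 ∧ omegaQ 1 = omega ∧ ConvexOn ℝ (Set.Ici 0) omegaQ ∧
      AntitoneOn omegaQ (Set.Ici 0) ∧
      ∀ ρ : ℝ, 0 ≤ ρ → ρ ≤ 1 → max (3 - ρ) omega ≤ omegaQ ρ ∧ omegaQ ρ ≤ 3 - (3 - omega) * ρ) ∧
    (∀ ρ : ℝ, 0 ≤ ρ → ρ ≤ 3 - Real.logb 2 7 → omegaQ ρ = 3 - ρ) ∧
    (omega = 2 ↔ ∀ ρ : ℝ, 0 ≤ ρ → ρ < 1 → omegaQ ρ = 3 - ρ) :=
  ⟨fun _ _ k j => pow_two_bounds k j, fun _ _ _ _ hn hq => bounds hn hq,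
    ⟨omegaQ_zero, omegaQ_one, omegaQ_convex, omegaQ_antitone,
      fun _ h1 h2 => ⟨max_le (lower h1) (omega_le_omegaQ h1 h2), omegaQ_interp h1 h2⟩⟩,
    fun _ h1 h2 => omegaQ_small h1 h2, omega_two_iff⟩

end Pool.Agent.Results.MP_39ba8f_lc.RankRestrictedExponent
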